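import Pool.Agent.W979.TE.Defs2
import Pool.Agent.W715.BC.Core2

/-! First stage: a blowup, or sets `X` and `Y` as in the block lemma. -/

set_option autoImplicit false

open Classical

namespace Pool.Agent.W74.TE

open Pool.Agent.W715.BC Pool.Agent.W979.TE

variable {A B : Type} [Fintype A] [Fintype B]

/-- number of compatible centres joined to `y` -/
noncomputable def mm {s q s' : ℕ} (r : A → B → Prop) (i₀ : Fin s)
    (R : (Fin s' → B) × ({i : Fin s // i ≠ i₀} → Fin q → A)) (y : B) : ℕ :=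
  ((CC r i₀ R.1 R.2).filter (fun c => r c y)).card

lemma fib_le {s q s' : ℕ} (r : A → B → Prop) (L : ℕ) (i₀ : Fin s)
    (R : (Fin s' → B) × ({i : Fin s // i ≠ i₀} → Fin q → A)) (p : Fin q → A) (y : B) :
    (Finset.univ.filter (fun z : A × (Fin s → B) =>
      Clean r L z.1 z.2 R.1 (jn i₀ p R.2) ∧ z.2 i₀ = y)).card ≤ L ^ (s - 1) * mm r i₀ R y := by
  have h3 := Finset.card_le_mul_card_image (f := fun z : A × (Fin s → B) => z.1)
    (Finset.univ.filter (fun z : A × (Fin s → B) =>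
      Clean r L z.1 z.2 R.1 (jn i₀ p R.2) ∧ z.2 i₀ = y)) (L ^ (s - 1)) (by
      intro c _
      refine le_trans (Finset.card_le_card ?_) (ext_fib_cy r L R.1 (jn i₀ p R.2) c i₀ y)
      intro z hz
      simp only [Finset.mem_filter, Finset.mem_univ, true_and, mem_Ext] at hz ⊢
      exact ⟨hz.1.1, hz.2, hz.1.2⟩)
  refine h3.trans (Nat.mul_le_mul_left _ (Finset.card_le_card ?_))
  intro c hc
  rw [Finset.mem_image] at hc
  obtain ⟨z, hz, rfl⟩ := hc
  simp only [Finset.mem_filter, Finset.mem_univ, true_and] at hz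
  obtain ⟨hz, hzy⟩ := hz
  simp only [Finset.mem_filter, CC, Finset.mem_univ, true_and]
  refine ⟨⟨hz.2.1, fun j => ⟨z.2 j.1, hz.1 j.1, fun a => ?_⟩⟩, ?_⟩
  · have := hz.2.2.1 j.1 a
    rwa [jn_ne] at this
  · rw [← hzy]; exact hz.1 i₀

/-- the vertices with many compatible centres -/
noncomputable def YR {s q s' : ℕ} (r : A → B → Prop) (i₀ : Fin s)
    (μ : (Fin s' → B) × ({i : Fin s // i ≠ i₀} → Fin q → A) → ℕ)
    (R : (Fin s' → B) × ({i : Fin s // i ≠ i₀} → Fin q → A)) : Finset B :=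
  Finset.univ.filter (fun y => μ R ≤ mm r i₀ R y)

lemma EE_le2 [Nonempty B] {s q s' : ℕ} (r : A → B → Prop) (L B₀ β D K : ℕ) (hr : Reg r D K)
    (i₀ : Fin s) (μ : (Fin s' → B) × ({i : Fin s // i ≠ i₀} → Fin q → A) → ℕ) :
    (EE (q := q) (s' := s') r L B₀ β i₀).card ≤
      ∑ R : (Fin s' → B) × ({i : Fin s // i ≠ i₀} → Fin q → A),
        (Fintype.card A ^ q * (L ^ (s - 1) * μ R) +
          (K * D) ^ q * (L ^ (s - 1) * ∑ y ∈ YR r i₀ μ R, mm r i₀ R y)) := by
  have h1 : (EE (q := q) (s' := s') r L B₀ β i₀).card ≤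
      (Finset.univ.filter (fun u : ((Fin s' → B) × ({i : Fin s // i ≠ i₀} → Fin q → A)) ×
        ((Fin q → A) × (A × (Fin s → B))) =>
        Gd r L B₀ β i₀ u.1.1 (jn i₀ u.2.1 u.1.2) ∧
        Clean r L u.2.2.1 u.2.2.2 u.1.1 (jn i₀ u.2.1 u.1.2) ∧
        u.2.2.2 i₀ = ysel r L B₀ β i₀ u.1.1 (jn i₀ u.2.1 u.1.2))).card := by
    apply Finset.card_le_card_of_injOn
      (fun v => ((v.1.1, fun i => v.1.2 i.1), (v.1.2 i₀, v.2)))
    · intro v hv
      simp only [EE, Finset.coe_filter, Finset.mem_univ, true_and, Set.mem_ofPred_eq] at hv ⊢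
      simp only [jn_restrict]
      exact hv
    · intro v hv v' hv' hvv
      simp only [Prod.mk.injEq] at hvv
      obtain ⟨⟨h1, h2⟩, h3, h4⟩ := hvv
      refine Prod.ext (Prod.ext h1 ?_) h4
      funext i
      by_cases hi : i = i₀
      · rw [hi]; exact h3
      · exact congrFun h2 ⟨i, hi⟩
  rw [card_filter_prod (α := (Fin s' → B) × ({i : Fin s // i ≠ i₀} → Fin q → A))
        (β := (Fin q → A) × (A × (Fin s → B)))
        (fun R v => Gd r L B₀ β i₀ R.1 (jn i₀ v.1 R.2) ∧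
        Clean r L v.2.1 v.2.2 R.1 (jn i₀ v.1 R.2) ∧
        v.2.2 i₀ = ysel r L B₀ β i₀ R.1 (jn i₀ v.1 R.2))] at h1
  refine h1.trans (Finset.sum_le_sum fun R _ => ?_)
  rw [card_filter_prod (α := Fin q → A) (β := A × (Fin s → B))
        (fun p v => Gd r L B₀ β i₀ R.1 (jn i₀ p R.2) ∧
        Clean r L v.1 v.2 R.1 (jn i₀ p R.2) ∧
        v.2 i₀ = ysel r L B₀ β i₀ R.1 (jn i₀ p R.2))]
  have h2 : ∀ p : Fin q → A, (Finset.univ.filter (fun v : A × (Fin s → B) =>
        Gd r L B₀ β i₀ R.1 (jn i₀ p R.2) ∧ Clean r L v.1 v.2 R.1 (jn i₀ p R.2) ∧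
        v.2 i₀ = ysel r L B₀ β i₀ R.1 (jn i₀ p R.2))).card ≤
      L ^ (s - 1) * μ R + ∑ y ∈ YR r i₀ μ R,
        (if ∀ a, r (p a) y then L ^ (s - 1) * mm r i₀ R y else 0) := by
    intro p
    set F := (Finset.univ.filter (fun v : A × (Fin s → B) =>
        Gd r L B₀ β i₀ R.1 (jn i₀ p R.2) ∧ Clean r L v.1 v.2 R.1 (jn i₀ p R.2) ∧
        v.2 i₀ = ysel r L B₀ β i₀ R.1 (jn i₀ p R.2))) with hF
    by_cases hne : F.Nonempty
    · obtain ⟨v, hv⟩ := hne
      rw [hF, Finset.mem_filter] at hv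
      obtain ⟨-, -, hv1, hv2⟩ := hv
      set y := ysel r L B₀ β i₀ R.1 (jn i₀ p R.2) with hy
      have hadj : ∀ a, r (p a) y := by
        intro a
        have := hv1.2.2.1 i₀ a
        rwa [jn_self, hv2] at this
      have hle : F.card ≤ L ^ (s - 1) * mm r i₀ R y := by
        refine le_trans (Finset.card_le_card ?_) (fib_le r L i₀ R p y)
        intro z hz
        rw [hF, Finset.mem_filter] at hz
        rw [Finset.mem_filter]
        exact ⟨Finset.mem_univ _, hz.2.2⟩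
      by_cases hmu : μ R ≤ mm r i₀ R y
      · have hyY : y ∈ YR r i₀ μ R := by
          rw [YR, Finset.mem_filter]
          exact ⟨Finset.mem_univ _, hmu⟩
        have h3 := Finset.single_le_sum (f := fun y =>
          (if ∀ a, r (p a) y then L ^ (s - 1) * mm r i₀ R y else 0))
          (fun _ _ => Nat.zero_le _) hyY
        simp only [hadj, implies_true, if_true] at h3
        exact (hle.trans h3).trans (Nat.le_add_left _ _)
      · push Not at hmu
        exact (hle.trans (Nat.mul_le_mul_left _ hmu.le)).trans (Nat.le_add_right _ _)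
    · rw [Finset.not_nonempty_iff_eq_empty] at hne
      rw [hne]
      exact Nat.zero_le _
  refine (Finset.sum_le_sum fun p _ => h2 p).trans ?_
  rw [Finset.sum_add_distrib, Finset.sum_const, smul_eq_mul, Finset.card_univ, Fintype.card_fun,
    Fintype.card_fin, Finset.sum_comm]
  refine Nat.add_le_add_left ?_ _
  rw [Finset.mul_sum, Finset.mul_sum]
  refine Finset.sum_le_sum fun y _ => ?_
  rw [← Finset.sum_filter, Finset.sum_const, smul_eq_mul]
  refine Nat.mul_le_mul_right _ ?_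
  have h4 := card_pi_le (I := Fin q) (β := A) (fun _ a => r a y) (K * D) (fun _ => hr.ub y)
  rw [Fintype.card_fin] at h4
  exact h4

lemma W_le {s q s' : ℕ} (r : A → B → Prop) (D K : ℕ) (hr : Reg r D K)
    (i₀ : Fin s) (μ : (Fin s' → B) × ({i : Fin s // i ≠ i₀} → Fin q → A) → ℕ)
    (R : (Fin s' → B) × ({i : Fin s // i ≠ i₀} → Fin q → A)) :
    ∑ y ∈ YR r i₀ μ R, mm r i₀ R y ≤ (CC r i₀ R.1 R.2).card * (K * D) := by
  have h1 : ∑ y ∈ YR r i₀ μ R, mm r i₀ R y ≤ ∑ y : B, mm r i₀ R y :=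
    Finset.sum_le_sum_of_subset (Finset.subset_univ _)
  refine h1.trans ?_
  unfold mm
  simp_rw [Finset.card_filter]
  rw [Finset.sum_comm]
  have h2 : ∀ c ∈ CC r i₀ R.1 R.2, ∑ y : B, (if r c y then 1 else 0) ≤ K * D := by
    intro c _
    rw [← Finset.card_filter]
    exact hr.ua c
  refine (Finset.sum_le_sum h2).trans ?_
  rw [Finset.sum_const, smul_eq_mul]

/-- the final counting argument with abstract data -/
lemma final_count {ρ : Type} [Fintype ρ] (X W : ρ → ℝ) (μ0 : ρ → ℝ) (S T κ' T' M' c : ℝ)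
    (hκ : 0 ≤ κ') (hX : ∀ R, 0 ≤ X R) (hT : c ≤ ∑ R, W R) (hS : ∑ R, X R ≤ S)
    (hbad : ∀ R, μ0 R < M' → W R ≤ T) (hT' : (Fintype.card ρ : ℝ) * T ≤ T')
    (hT0 : 0 ≤ T) (hlt : T' + κ' * S < c) :
    ∃ R, M' ≤ μ0 R ∧ κ' * X R ≤ W R := by
  by_contra hcon
  push Not at hcon
  have h1 : ∀ R, W R ≤ T + κ' * X R := by
    intro R
    rcases lt_or_ge (μ0 R) M' with h | h
    · have := hbad R h
      have := mul_nonneg hκ (hX R)
      linarith
    · have := hcon R h
      linarith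
  have h2 : ∑ R, W R ≤ ∑ R, (T + κ' * X R) := Finset.sum_le_sum fun R _ => h1 R
  rw [Finset.sum_add_distrib, Finset.sum_const, nsmul_eq_mul, ← Finset.mul_sum,
    Finset.card_univ] at h2
  have h3 : κ' * ∑ R, X R ≤ κ' * S := mul_le_mul_of_nonneg_left hS hκ
  linarith

set_option maxHeartbeats 4000000 in
theorem st1 (h_hvy : S_HVY) (h_cnt : S_CNT) : S_ST1 := by
  intro s q t K hs hq ht hK
  obtain ⟨η, hη, C1, hcnt⟩ := h_cnt s q 0 K hs hq hK
  obtain ⟨C2, hhvy⟩ := h_hvy s q 0 t K η hq (Nat.zero_le _) hK hη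
  set L := LL s t 0 with hL
  have hL1 : 1 ≤ L := by
    simp only [hL, LL]; omega
  set β := (s + 1) * t * s with hβ
  have hβ1 : 1 ≤ β := by
    have : 0 < (s + 1) * t * s := by positivity
    omega
  set B₀ := (s + 1) * t * L ^ s + 1 with hB₀
  set m2 := (s - 1) + 0 + (s - 1) * q with hm2
  have hsR : (0 : ℝ) < s := by exact_mod_cast hs
  have hβR : (0 : ℝ) < β := by exact_mod_cast hβ1
  have hKR : (0 : ℝ) < K := by exact_mod_cast hK
  have hLR : (0 : ℝ) < L := by exact_mod_cast hL1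
  set c2 : ℝ := 1 / (8 * s * β * K ^ q * L ^ (s - 1)) with hc2
  set ε : ℝ := 1 / (16 * s * β * L ^ (s - 1) * K ^ m2) with hε
  set κ : ℝ := c2 / (4 * K ^ m2) with hκ
  have hc2p : 0 < c2 := by rw [hc2]; positivity
  have hεp : 0 < ε := by rw [hε]; positivity
  have hκp : 0 < κ := by rw [hκ]; positivity
  refine ⟨κ, ε, hκp, hεp, ?_⟩
  intro M
  set M' := max M 1 with hM'
  have hM1 : 1 ≤ M' := le_max_right _ _
  set C := max (max (max C1 C2) (4 * (B₀ : ℝ))) (max 1 (K * (M' + 1) / (ε * c2))) with hC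
  refine ⟨C, ?_⟩
  intro A B _ _ _ r D hr hD hI4
  have hC1 : C1 ≤ C := le_trans (le_max_left _ _) (le_trans (le_max_left _ _) (le_max_left _ _))
  have hC2 : C2 ≤ C := le_trans (le_max_right _ _) (le_trans (le_max_left _ _) (le_max_left _ _))
  have hC3 : 4 * (B₀ : ℝ) ≤ C := le_trans (le_max_right _ _) (le_max_left _ _)
  have hC4 : 1 ≤ C := le_trans (le_max_left _ _) (le_max_right _ _)
  have hC5 : K * (M' + 1) / (ε * c2) ≤ C := le_trans (le_max_right _ _) (le_max_right _ _)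
  have hDp : (0 : ℝ) < D := lt_of_lt_of_le one_pos (hC4.trans hD)
  have hDn : 0 < D := by exact_mod_cast hDp
  have hBne : Nonempty B := by
    obtain ⟨a⟩ := ‹Nonempty A›
    have h1 := hr.la a
    have h2 : 0 < deg1 r a := lt_of_lt_of_le hDn h1
    unfold deg1 at h2
    rw [Finset.card_pos] at h2
    obtain ⟨b, _⟩ := h2
    exact ⟨b⟩
  have hAp : (0 : ℝ) < Fintype.card A := by exact_mod_cast Fintype.card_pos
  rw [or_iff_not_imp_left]
  intro hno
  -- heavy stars are few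
  have hfew : (NH r q L : ℝ) < η * (Fintype.card B : ℝ) * (D : ℝ) ^ (q + 1) := by
    by_contra hcon
    push Not at hcon
    apply hno
    apply hhvy A B r D hr (hC2.trans hD) _ hcon
    simp only [zero_le, sup_of_le_right, Nat.sub_self, pow_zero, mul_one, pow_one]
    exact hC2.trans hD
  have hΩ := hcnt A B r D L hr (hC1.trans hD) hfew
  have hidx := exists_index (q := q) (s' := 0) r L B₀ ht hno (by rw [hB₀]; omega)
  set n : ℝ := (Fintype.card A : ℝ) with hn
  have hnN : n ^ (s * q - 1) ≤ ((Fintype.card A + Fintype.card B : ℕ) : ℝ) ^ (s * q - 1) := by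
    apply pow_le_pow_left₀ hAp.le
    push_cast
    have : (0 : ℝ) ≤ Fintype.card B := Nat.cast_nonneg _
    linarith
  have hsq : 1 ≤ s * q := Nat.one_le_iff_ne_zero.mpr (by positivity)
  -- root tuples
  have hnsq : ∀ x : ℝ, 0 ≤ x → x ≤ C → x * n ^ (s * q) ≤ n * (D : ℝ) ^ (s * q + s) := by
    intro x hx0 hx
    have h1 : n ^ (s * q) = n * n ^ (s * q - 1) := by
      rw [← pow_succ']
      congr 1
      omega
    rw [h1]
    calc x * (n * n ^ (s * q - 1)) = n * (x * n ^ (s * q - 1)) := by ring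
      _ ≤ n * (C * ((Fintype.card A + Fintype.card B : ℕ) : ℝ) ^ (s * q - 1)) := by
          apply mul_le_mul_of_nonneg_left _ hAp.le
          exact mul_le_mul hx hnN (by positivity) (by positivity)
      _ ≤ _ := mul_le_mul_of_nonneg_left hI4 hAp.le
  have hR : (B₀ : ℝ) * (Fintype.card ((Fin 0 → B) × (Fin s → Fin q → A)) : ℝ) ≤
      (1 / 4) * n * (D : ℝ) ^ (s * q + s) := by
    have h1 : (Fintype.card ((Fin 0 → B) × (Fin s → Fin q → A)) : ℝ) = n ^ (s * q) := by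
      rw [Fintype.card_prod, Fintype.card_fun, Fintype.card_fun, Fintype.card_fun,
        Fintype.card_fin, Fintype.card_fin, Fintype.card_fin, ← pow_mul, pow_zero, one_mul,
        mul_comm q s]
      push_cast
      rfl
    rw [h1]
    have := hnsq _ (by positivity) hC3
    linarith
  rw [add_zero] at hΩ
  have hsum : (1 / 4) * n * (D : ℝ) ^ (s * q + s) ≤
      ∑ i : Fin s, (β : ℝ) * ((EE (q := q) (s' := 0) r L B₀ β i).card : ℝ) := by
    have h1 : ((Finset.univ.filter (fun z : A × (Fin s → B) × (Fin 0 → B) × (Fin s → Fin q → A) =>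
        Clean r L z.1 z.2.1 z.2.2.1 z.2.2.2)).card : ℝ) ≤
        (B₀ : ℝ) * (Fintype.card ((Fin 0 → B) × (Fin s → Fin q → A)) : ℝ) +
        ∑ i : Fin s, (β : ℝ) * ((EE (q := q) (s' := 0) r L B₀ β i).card : ℝ) := by
      exact_mod_cast hidx
    linarith
  -- choose the index
  obtain ⟨i₀, hi₀⟩ : ∃ i₀ : Fin s, n * (D : ℝ) ^ (s * q + s) ≤
      4 * s * β * ((EE (q := q) (s' := 0) r L B₀ β i₀).card : ℝ) := by
    by_contra hcon
    push Not at hcon
    have hne : (Finset.univ : Finset (Fin s)).Nonempty := ⟨⟨0, hs⟩, Finset.mem_univ _⟩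
    have h1 : ∑ i : Fin s, 4 * s * β * ((EE (q := q) (s' := 0) r L B₀ β i).card : ℝ) <
        ∑ _i : Fin s, n * (D : ℝ) ^ (s * q + s) :=
      Finset.sum_lt_sum_of_nonempty hne (fun i _ => hcon i)
    rw [Finset.sum_const, Finset.card_univ, Fintype.card_fin, nsmul_eq_mul] at h1
    have h2 : ∑ i : Fin s, 4 * s * β * ((EE (q := q) (s' := 0) r L B₀ β i).card : ℝ) =
        4 * s * ∑ i : Fin s, (β : ℝ) * ((EE (q := q) (s' := 0) r L B₀ β i).card : ℝ) := by
      rw [Finset.mul_sum]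
      apply Finset.sum_congr rfl
      intro i _; ring
    rw [h2] at h1
    have h3 : (4 * (s : ℝ)) * ((1 / 4) * n * (D : ℝ) ^ (s * q + s)) ≤
        (4 * (s : ℝ)) * ∑ i : Fin s, (β : ℝ) * ((EE (q := q) (s' := 0) r L B₀ β i).card : ℝ) :=
      mul_le_mul_of_nonneg_left hsum (by positivity)
    nlinarith
  have hexp : s * q + s = q + (m2 + 1) := by
    obtain ⟨u, rfl⟩ : ∃ u, s = u + 1 := ⟨s - 1, by omega⟩
    simp only [hm2, Nat.add_sub_cancel]
    ring
  -- the thresholds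
  set μ0 : (Fin 0 → B) × ({i : Fin s // i ≠ i₀} → Fin q → A) → ℝ := fun R =>
    2 * ε * (D : ℝ) ^ (q + 1) * ((CC r i₀ R.1 R.2).card : ℝ) / n ^ q with hμ0
  have hμ0n : ∀ R, 0 ≤ μ0 R := by intro R; rw [hμ0]; positivity
  have hEE := EE_le2 (q := q) (s' := 0) r L B₀ β D K hr i₀ (fun R => ⌊μ0 R⌋₊)
  set W : (Fin 0 → B) × ({i : Fin s // i ≠ i₀} → Fin q → A) → ℝ := fun R =>
    ((∑ y ∈ YR r i₀ (fun R => ⌊μ0 R⌋₊) R, mm r i₀ R y : ℕ) : ℝ) with hW
  have hCCs := CC_sum_le (q := q) (s' := 0) r D K hr i₀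
  have hS : ∑ R : (Fin 0 → B) × ({i : Fin s // i ≠ i₀} → Fin q → A),
      ((CC r i₀ R.1 R.2).card : ℝ) ≤ n * ((K : ℝ) * D) ^ m2 := by
    have h := (Nat.cast_le (α := ℝ)).mpr hCCs
    push_cast at h
    exact h
  have hEE2 : ((EE (q := q) (s' := 0) r L B₀ β i₀).card : ℝ) ≤
      L ^ (s - 1) * (2 * ε * (D : ℝ) ^ (q + 1) * (n * ((K : ℝ) * D) ^ m2)) +
      ((K : ℝ) * D) ^ q * (L ^ (s - 1) * ∑ R, W R) := by
    have h1 : ((EE (q := q) (s' := 0) r L B₀ β i₀).card : ℝ) ≤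
        ∑ R : (Fin 0 → B) × ({i : Fin s // i ≠ i₀} → Fin q → A),
        (n ^ q * ((L : ℝ) ^ (s - 1) * ((⌊μ0 R⌋₊ : ℕ) : ℝ)) +
          ((K : ℝ) * D) ^ q * ((L : ℝ) ^ (s - 1) * W R)) := by
      have h := (Nat.cast_le (α := ℝ)).mpr hEE
      simp only [hW]
      push_cast at h ⊢
      exact h
    refine h1.trans ?_
    rw [Finset.sum_add_distrib]
    refine add_le_add ?_ ?_
    · calc ∑ R : (Fin 0 → B) × ({i : Fin s // i ≠ i₀} → Fin q → A),
            n ^ q * ((L : ℝ) ^ (s - 1) * ((⌊μ0 R⌋₊ : ℕ) : ℝ))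
          ≤ ∑ R : (Fin 0 → B) × ({i : Fin s // i ≠ i₀} → Fin q → A),
            (L : ℝ) ^ (s - 1) * (2 * ε * (D : ℝ) ^ (q + 1)) *
              ((CC r i₀ R.1 R.2).card : ℝ) := by
            refine Finset.sum_le_sum fun R _ => ?_
            have h2 : ((⌊μ0 R⌋₊ : ℕ) : ℝ) ≤ μ0 R := Nat.floor_le (hμ0n R)
            calc n ^ q * ((L : ℝ) ^ (s - 1) * ((⌊μ0 R⌋₊ : ℕ) : ℝ))
                ≤ n ^ q * ((L : ℝ) ^ (s - 1) * μ0 R) :=
                  mul_le_mul_of_nonneg_left (mul_le_mul_of_nonneg_left h2 (by positivity))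
                    (by positivity)
              _ = _ := by
                  rw [hμ0]
                  have : n ^ q ≠ 0 := by positivity
                  field_simp
        _ = (L : ℝ) ^ (s - 1) * (2 * ε * (D : ℝ) ^ (q + 1)) *
            ∑ R : (Fin 0 → B) × ({i : Fin s // i ≠ i₀} → Fin q → A),
              ((CC r i₀ R.1 R.2).card : ℝ) := by rw [Finset.mul_sum]
        _ ≤ (L : ℝ) ^ (s - 1) * (2 * ε * (D : ℝ) ^ (q + 1)) * (n * ((K : ℝ) * D) ^ m2) :=
            mul_le_mul_of_nonneg_left hS (by positivity)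
        _ = _ := by ring
    · rw [← Finset.mul_sum, ← Finset.mul_sum]
  -- lower bound for the sum
  have hWs : c2 * (n * (D : ℝ) ^ (m2 + 1)) ≤ ∑ R, W R := by
    have h1 : n * (D : ℝ) ^ (s * q + s) ≤ 4 * s * β * (L ^ (s - 1) *
        (2 * ε * (D : ℝ) ^ (q + 1) * (n * ((K : ℝ) * D) ^ m2)) +
        ((K : ℝ) * D) ^ q * (L ^ (s - 1) * ∑ R, W R)) :=
      hi₀.trans (mul_le_mul_of_nonneg_left hEE2 (by positivity))
    have h2 : 4 * s * β * (L ^ (s - 1) *
        (2 * ε * (D : ℝ) ^ (q + 1) * (n * ((K : ℝ) * D) ^ m2))) =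
        (1 / 2) * (n * (D : ℝ) ^ (s * q + s)) := by
      rw [hε, hexp, mul_pow]
      field_simp
      ring
    have h3 : (1 / 2) * (n * (D : ℝ) ^ (s * q + s)) ≤
        4 * s * β * (((K : ℝ) * D) ^ q * (L ^ (s - 1) * ∑ R, W R)) := by
      rw [mul_add, h2] at h1
      linarith
    rw [hexp, pow_add (D : ℝ) q (m2 + 1)] at h3
    have h4 : (D : ℝ) ^ q * (n * (D : ℝ) ^ (m2 + 1)) ≤
        (D : ℝ) ^ q * (8 * s * β * K ^ q * L ^ (s - 1) * ∑ R, W R) := by
      rw [mul_pow] at h3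
      nlinarith
    have h5 := le_of_mul_le_mul_left h4 (by positivity)
    rw [hc2, one_div, inv_mul_le_iff₀ (by positivity)]
    exact h5
  -- the final choice
  have hcardR : (Fintype.card ((Fin 0 → B) × ({i : Fin s // i ≠ i₀} → Fin q → A)) : ℝ) =
      n ^ ((s - 1) * q) := by
    rw [Fintype.card_prod, Fintype.card_fun, Fintype.card_fun, Fintype.card_fun,
      Fintype.card_fin, Fintype.card_fin, ← pow_mul, pow_zero, one_mul]
    have h2 : Fintype.card {i : Fin s // i ≠ i₀} = s - 1 := by simp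
    rw [h2, mul_comm q (s - 1)]
    push_cast
    rfl
  obtain ⟨R, hR1, hR2⟩ := final_count
    (ρ := (Fin 0 → B) × ({i : Fin s // i ≠ i₀} → Fin q → A))
    (fun R => ((CC r i₀ R.1 R.2).card : ℝ)) W μ0 (n * ((K : ℝ) * D) ^ m2)
    (K * D * ((M' + 1) * n ^ q / (2 * ε * (D : ℝ) ^ (q + 1)))) (κ * D)
    (c2 / 2 * (n * (D : ℝ) ^ (m2 + 1))) (M' + 1) (c2 * (n * (D : ℝ) ^ (m2 + 1)))
    (by positivity) (fun R => by positivity) hWs hS (by
      intro R hR
      have h1 : W R ≤ ((CC r i₀ R.1 R.2).card : ℝ) * ((K : ℝ) * D) := by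
        have h := (Nat.cast_le (α := ℝ)).mpr
          (W_le (q := q) (s' := 0) r D K hr i₀ (fun R => ⌊μ0 R⌋₊) R)
        simp only [hW]
        push_cast at h ⊢
        exact h
      have h2 : ((CC r i₀ R.1 R.2).card : ℝ) ≤ (M' + 1) * n ^ q / (2 * ε * (D : ℝ) ^ (q + 1)) := by
        rw [le_div_iff₀ (by positivity)]
        rw [hμ0] at hR
        simp only at hR
        rw [div_lt_iff₀ (by positivity)] at hR
        linarith
      calc W R ≤ _ := h1
        _ ≤ ((M' + 1) * n ^ q / (2 * ε * (D : ℝ) ^ (q + 1))) * ((K : ℝ) * D) :=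
            mul_le_mul_of_nonneg_right h2 (by positivity)
        _ = _ := by ring) (by
      rw [hcardR]
      have h1 : K * (M' + 1) / (ε * c2) * n ^ (s * q) ≤ n * (D : ℝ) ^ (s * q + s) :=
        hnsq _ (by positivity) hC5
      have h2 : n ^ (s * q) = n ^ ((s - 1) * q) * n ^ q := by
        rw [← pow_add]
        congr 1
        obtain ⟨u, rfl⟩ : ∃ u, s = u + 1 := ⟨s - 1, by omega⟩
        simp only [Nat.add_sub_cancel]
        ring
      rw [h2, hexp, pow_add (D : ℝ) q (m2 + 1)] at h1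
      have h3 : K * (M' + 1) * (n ^ ((s - 1) * q) * n ^ q) ≤
          (ε * c2) * (n * ((D : ℝ) ^ q * (D : ℝ) ^ (m2 + 1))) := by
        rw [div_mul_eq_mul_div, div_le_iff₀ (by positivity)] at h1
        linarith
      have h4 : n ^ ((s - 1) * q) * (K * D * ((M' + 1) * n ^ q / (2 * ε * (D : ℝ) ^ (q + 1)))) =
          (K * (M' + 1) * (n ^ ((s - 1) * q) * n ^ q)) / (2 * ε * (D : ℝ) ^ q) := by
        rw [pow_succ]
        field_simp
      rw [h4, div_le_iff₀ (by positivity)]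
      calc K * (M' + 1) * (n ^ ((s - 1) * q) * n ^ q) ≤ _ := h3
        _ = _ := by ring) (by positivity) (by
      have h1 : κ * D * (n * ((K : ℝ) * D) ^ m2) = c2 / 4 * (n * (D : ℝ) ^ (m2 + 1)) := by
        rw [hκ, mul_pow, pow_succ]
        field_simp
      rw [h1]
      have : 0 < n * (D : ℝ) ^ (m2 + 1) := by positivity
      nlinarith)
  refine ⟨CC r i₀ R.1 R.2, YR r i₀ (fun R => ⌊μ0 R⌋₊) R, ⌊μ0 R⌋₊, ?_, ?_, ?_, ?_, ?_⟩
  · rw [← Finset.card_pos]
    by_contra hcon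
    have h0 : (CC r i₀ R.1 R.2).card = 0 := by omega
    rw [hμ0] at hR1
    simp only at hR1
    rw [h0, Nat.cast_zero, mul_zero, zero_div] at hR1
    linarith
  · have h1 : μ0 R < ⌊μ0 R⌋₊ + 1 := Nat.lt_floor_add_one _
    have h2 : M ≤ M' := le_max_left _ _
    linarith
  · intro y hy
    rw [YR, Finset.mem_filter] at hy
    exact hy.2
  · exact hR2
  · have h1 : μ0 R < ⌊μ0 R⌋₊ + 1 := Nat.lt_floor_add_one _
    have h2 : μ0 R ≤ 2 * (⌊μ0 R⌋₊ : ℝ) := by linarith
    have h3 : 2 * ε * (D : ℝ) ^ (q + 1) * ((CC r i₀ R.1 R.2).card : ℝ) = μ0 R * n ^ q := by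
      rw [hμ0]
      have : n ^ q ≠ 0 := by positivity
      field_simp
    have h4 : μ0 R * n ^ q ≤ 2 * (⌊μ0 R⌋₊ : ℝ) * n ^ q :=
      mul_le_mul_of_nonneg_right h2 (by positivity)
    linarith

end Pool.Agent.W74.TE
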